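import Pool.Agent.WAT.Defs

/-!
# Squad WAT: the statements

Complete proofs in the docstrings; all rows are independent (a row may take the rows which it uses as
hypotheses).  Setting: `Ld ℓ e V γ`, `V` abelian, `T = Tg V γ`, `E = T / C(V)`, `b v` the local block
of `v ∈ V`, `cz V V γ v = |C_E(v)|`, `iz V V γ = |E|`, `mm(v) = mm M ℓ (Cu v) v (b v) χ χ`.
-/

open scoped BigOperators

noncomputable section

namespace Pool.Agent.PP.TV

open Pool.Agent.Helper51_AWC Pool.Agent.Helper79_WRA Pool.Agent.PP Pool.Agent.PP.KF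
open Pool.Agent.PP.K9 Pool.Agent.PP.K9.H97 Pool.Agent.PP.H75 Pool.Agent.PP.T3 Pool.Agent.PP.T2
open Pool.Agent.PP.T5 Pool.Agent.PP.TB
open Pool.Agent.PP.T8 (Rv Fq Fr Qt3Stmt FqtStmt)

attribute [local instance] Ideal.Quotient.field

/-! ## 1. The theorem of Watanabe -/

/-- TGI: integrality of the twisted sums.

Proof.  As `TB.GizStmt` (`Helper*_ATZ/GIZ.lean`), with the factor `lam(v)` and `W = Z = V`.
`F(v) = |V| lam(v) mm(v)` is constant on the `T`-orbits of `V` (`ZcpStmt` (i), `Li`), the orbit of `v`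
has `iz/cz(v)` elements (`ZcpStmt` (iii)), so the left side is `iz S`, `S` the sum of `F` over
representatives of the orbits, an algebraic integer (`ZinStmt`; `lam(v)` is a root of unity).  `S` is
rational: choose `a > 0` with `v ^ ℓ ^ a = 1` for all `v ∈ V`, `ζ` of order `ℓ ^ a`, `lam(v) = ζ ^ k(v)`.
For `j` prime to `ℓ` the map `v ↦ v ^ j` is a bijection of `V` and `cz(v ^ j) = cz(v)`, so
`φ(ℓ ^ a)` times the left side is `∑_v cz(v) ∑_j lam(v) ^ j |V| mm(v ^ j)`, `j < ℓ ^ a` prime to `ℓ`,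
and by `ZinStmt` the inner sum is `∑_i m_i ∑_j ζ ^ ((i + k(v)) j)`, a rational integer (the sum over `j`
is `φ(ℓ ^ a)`, `- ℓ ^ (a-1)` or `0`).  A rational algebraic integer is an integer. -/
def TgiStmt : Prop := ∀ (ℓ : ℕ) [Fact ℓ.Prime] (M : Ideal (integralClosure ℤ ℂ)) [M.IsMaximal],
  (ℓ : integralClosure ℤ ℂ) ∈ M → ∀ (G : Type) [Group G] [Finite G] (e : G → FF M)
  (V : Subgroup G) (γ : G → FF M) (b : G → G → FF M), Zd ℓ e V V γ b →
  ∀ lam : V →* ℂ, Li V γ lam → ∀ χ ∈ Irr G, ∃ n : ℤ,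
    (Nat.card V : ℂ) * ∑ᶠ v : V, (cz V V γ (v : G) : ℂ) * lam v *
      mm M ℓ (Cu (v : G)) v (b v) χ χ = (iz V V γ : ℂ) * n

/-- TVA: the twisted sums vanish.

Proof.  Let `A` be the sum.  By `Star` (for `lam ↦ lam⁻¹`, `v ↦ lam(v⁻¹)` is a homomorphism) and the
definitions of `Az`, `Rv`: `A = |V|⁻¹ ∑_v Az(v) lam(v) ∈ RM M`.  TGI: `|V| A = iz n`; `iz` is prime to
`ℓ` (`ZcpStmt` (iv)), so a unit of `RM M`, and `n/|V| ∈ RM M`, `|V|` a power of `ℓ`: so `|V|` divides `n`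
(see the proof of `TB.BfzStmt`; `KF.dvd_of_rr`), and `A = iz m` with an integer `m`.  `mm(v)` is real and
`> 0` for all `v ∈ V` (`PozStmt`, `χ ∈ e`), `cz(v) > 0`, `|lam(v)| = 1`, `lam(1) = 1` and
`lam(v) ≠ 1` for some `v`: so `|A| < ∑_v cz(v) mm(v) = Pw V ≤ iz` (`PjzStmt` with `W = V`; the triangle
inequality is strict: `|cz(1) mm(1) + cz(v) mm(v) lam(v)| < cz(1) mm(1) + cz(v) mm(v)`).  So `m = 0`. -/
def TvaStmt : Prop := ∀ (ℓ : ℕ) [Fact ℓ.Prime] (M : Ideal (integralClosure ℤ ℂ)) [M.IsMaximal],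
  (ℓ : integralClosure ℤ ℂ) ∈ M → ∀ (G : Type) [Group G] [Finite G] (e : G → FF M)
  (V : Subgroup G) (γ : G → FF M) (b : G → G → FF M), Zd ℓ e V V γ b → Star M ℓ e V V γ b →
  ∀ lam : V →* ℂ, Li V γ lam → (∃ v : V, lam v ≠ 1) → ∀ χ ∈ IrrE M e,
    ∑ᶠ v : V, (cz V V γ (v : G) : ℂ) * lam v * mm M ℓ (Cu (v : G)) v (b v) χ χ = 0

/-- SMM: the sum of the `mm(z)` over the characters of the block.

Proof.  `C = C(z)`, `β = b z`.  For `χ ∈ Irr G` not in `e`: `gv M C (z s) β χ = 0` for regular `s ∈ C`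
(`z ≠ 1`: `T3.SmgStmt` (i), `Lb` says that `β` is under `e`; `z = 1`: `β = e`, `IdmStmt`, as in
`TB.OneStmt`), so the sum may be taken over `Irr G`.  `T5.Co3Stmt` (`s' = s`):
`∑_χ gv M C (z s) β χ conj (gv M C (z s) β χ) = kr M C β s s = ∑_{κ ∈ β} κ(s) conj κ(s)`, so the sum is
`|C|⁻¹ ∑_s ∑_κ κ(s) conj κ(s)`, `s` over the regular elements of `C`, which is `ln β`
(`T3.LrkStmt` for the group `C`). -/
def SmmStmt : Prop := ∀ (ℓ : ℕ) [Fact ℓ.Prime] (M : Ideal (integralClosure ℤ ℂ)) [M.IsMaximal],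
  (ℓ : integralClosure ℤ ℂ) ∈ M → ∀ (G : Type) [Group G] [Finite G] (e : G → FF M)
  (V : Subgroup G) (γ : G → FF M) (b : G → G → FF M), Zd ℓ e V V γ b → ∀ z ∈ V,
  ∑ᶠ χ ∈ IrrE M e, mm M ℓ (Cu z) z (b z) χ χ = (ln (fun t : Cu z => b z t) : ℂ)

/-- FOU: Fourier inversion on `V / V₀`.

Proof.  `g(z) = ∑_{w ∈ V₀} f(z w)` depends only on the coset of `z`; for a nontrivial homomorphism `μ`
of `V/V₀` to the units of the complex numbers, `∑_{z ∈ V/V₀} g(z) μ(z) = ∑_v f(v) μ(v V₀) = 0` (the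
composition of `μ` with `V → V/V₀` is a homomorphism to `ℂ` which is trivial on `V₀`, not trivial).
Orthogonality of the characters of the finite abelian group `V/V₀` (for example
`AddChar` / `MonoidHom` duality in Mathlib: enough characters): `g` is constant.  Elementary
alternative: the functions on `V/V₀` with this property are orthogonal to all nontrivial characters. -/
def FouStmt : Prop := ∀ (V : Type) [CommGroup V] [Finite V] (V₀ : Subgroup V) (f : V → ℂ),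
  (∀ lam : V →* ℂ, (∀ v ∈ V₀, lam v = 1) → (∃ v, lam v ≠ 1) → ∑ᶠ v : V, f v * lam v = 0) →
  ∀ z : V, ∑ᶠ w : V₀, f (z * w) = ∑ᶠ w : V₀, f w

/-- CPV: coprime action.

Proof.  `T ≤ N(V)` acts on the abelian group `V` by conjugation, with kernel `C(V)` (`V`, `C(V) ≤ T`: `γ`
is a class function of `C(V)`, supported there), the image `S` in `MulAut V` has order `ix V γ`,
prime to `ℓ`.  `T8.CprStmt` (first part; exponent of `V` is a power of `ℓ`): `π : V → V` with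
`s (π v) = π v = π (s v)` for `s ∈ S`, and `π v = v` if `v` is fixed by `S`.  So `π` has values in
`Zf`, it is the identity on `Zf`, and it is trivial on the commutators `(s v) v⁻¹`, so on `Vc`.  If
`v ∈ Zf ⊓ Vc` then `v = π v = 1`.  `v π(v)⁻¹ ∈ Vc` for all `v`: `π(v) = (∏_{s ∈ S} s v) ^ m'` with
`m m' = 1` modulo the exponent (this is the construction in the proof of `CprStmt`; or: apply the
first part of `CprStmt` to the abelian group `V/Vc`, on which `S` acts trivially; or count: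
`|V| = |Zf| |ker π|`, and `ker π = Vc` because ...; the simplest way is to define `π` directly by this
product), so `V = Zf Vc`. -/
def CpvStmt : Prop := ∀ (ℓ : ℕ) [Fact ℓ.Prime] (F : Type) [Field F], GoodF ℓ F → ∀ (G : Type)
  [Group G] [Finite G] (e : G → F) (V : Subgroup G) (γ : G → F), Ld ℓ e V γ → ¬ ℓ ∣ ix V γ →
  Vc V γ ≤ V ∧ Zf V γ ⊓ Vc V γ = ⊥ ∧ ∀ v ∈ V, ∃ z ∈ Zf V γ, ∃ w ∈ Vc V γ, v = z * w

/-- DBL: local blocks of local blocks.

Proof.  `C = C(u) ∩ C(v) = C(u') ∩ C(v')`, a subgroup of `G` which contains `C(V)`.  The map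
`Cu v → C` (`Cu v` a subgroup of the group `Cu u`) is an isomorphism.  Let `β : G → FF M` be the
extension of `c` by zero, `β'` the extension of `c'`.  `β` is a block of `C` (`Bx C β`; transport of
`c` along the isomorphism) and `br_V(β) γ = γ` (the centraliser of `V.subgroupOf (Cu u)` in `Cu u` is
`C(V)`; compare `T3.LsbStmt`, `Helper85_AT3/LSB.lean`, and `K9.H97`: `cent_sub`, `br_ext0`); the same
for `β'`.  `γ = br_V(β) br_V(β') γ = br_V(β β') γ ≠ 0` (`H75.br_mulF`), so `β β' ≠ 0` and `β = β'`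
(`Bx.dich`).  `ln` is invariant under the isomorphisms (`Helper97_PP/Kri.lean`: `ncard_comp`). -/
def DblStmt : Prop := ∀ (ℓ : ℕ) [Fact ℓ.Prime] (M : Ideal (integralClosure ℤ ℂ)) [M.IsMaximal],
  (ℓ : integralClosure ℤ ℂ) ∈ M → ∀ (G : Type) [Group G] [Finite G] (e : G → FF M)
  (V : Subgroup G) (γ : G → FF M), Ld ℓ e V γ → ∀ u ∈ V, ∀ u' ∈ V, ∀ b b' : G → FF M,
  Lc e V γ u b → Lc e V γ u' b' → ∀ (v : Cu u) (v' : Cu u'), (v : G) ∈ V → (v' : G) ∈ V →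
  Cu u ⊓ Cu (v : G) = Cu u' ⊓ Cu (v' : G) → ∀ (c : Cu u → FF M) (c' : Cu u' → FF M),
  Lc (fun t : Cu u => b t) (V.subgroupOf (Cu u)) (fun t : Cu u => γ t) v c →
  Lc (fun t : Cu u' => b' t) (V.subgroupOf (Cu u')) (fun t : Cu u' => γ t) v' c' →
    ln (fun t : Cu v => c t) = ln (fun t : Cu v' => c' t)

/-- WAT: the theorem of Watanabe.

Proof.  Induction on `|G|`.  `TW.StaStmt`: `b'` with `Zd ℓ e V V γ b'` and `Star`; `b' v` is the local
block of `v` (`Zd.lb`), so `b' z = b` (`T3.LocStmt`).  `F(v) = cz(v) ln (b' v)`.  For a homomorphism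
`lam : V → ℂ` which is trivial on `Vc` and not trivial: `Li V γ lam` (`t v t⁻¹ = (t v t⁻¹ v⁻¹) v`), and
`∑_v F(v) lam(v) = ∑_{χ ∈ e} ∑_v cz(v) lam(v) mm(v) = 0` by SMM and TVA.  FOU for `V`, `V₀ = Vc` (as a
subgroup of `V`): `∑_{w ∈ Vc} F(z w) = ∑_{w ∈ Vc} F(w)`.  Since `z` commutes with `T`,
`T ∩ C(z w) = T ∩ C(w)` and `cz(z w) = cz(w)`.  Claim: `ln (b' (z w)) = ln (b' w)` for `w ∈ Vc`,
`w ≠ 1`.  If `w` (or `z w`) is in the centre of `G` then it commutes with `T`, so `w ∈ Zf ⊓ Vc`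
(`z ∈ Zf`), `w = 1` by CPV (`K9.InxStmt`).  So `C(w)` and `C(z w)` are proper subgroups.  In the group
`C(w)` with the block `b' w`, the defect group `V` and `γ` (`T3.LsbStmt`): the inertial group consists
of the elements of `T ∩ C(w)`, so `z` is in `Zf`; by induction `ln (b' w) = ln c`, `c` the local block
at `z` (`T3.LocStmt`).  The same in `C(z w)`: `ln (b' (z w)) = ln c'`.  `C(w) ∩ C(z) = C(z w) ∩ C(z)`, so
`ln c = ln c'` by DBL.  So the terms for `w = 1` are equal: `cz(1) ln (b' z) = cz(1) ln (b' 1)`,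
`cz(1) > 0` (`ZcpStmt`) and `b' 1 = e` (`C(1) = G`; `ln` of `b' 1` as a function on `Cu 1 = ⊤` is
`ln e`). -/
def WatStmt : Prop := ∀ (ℓ : ℕ) [Fact ℓ.Prime] (M : Ideal (integralClosure ℤ ℂ)) [M.IsMaximal],
  (ℓ : integralClosure ℤ ℂ) ∈ M → ∀ (G : Type) [Group G] [Finite G] (e : G → FF M)
  (V : Subgroup G) (γ : G → FF M), Ld ℓ e V γ → ∀ z ∈ Zf V γ, ∀ b : G → FF M, Lc e V γ z b →
    ln (fun t : Cu z => b t) = ln e

/-! ## 2. The recursion -/

/-- TSN: the telescoping sum for `U = V ^ n`.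

Proof.  As `T8.Ty8aStmt`, `Te8Stmt`, `Tx8Stmt`, `Ts8Stmt` with `Iu` instead of `Iq`, `n` instead of
`ℓ ^ (a-1)` and `Uw n V' ≠ ⊥` instead of `exponent V' = ℓ ^ a` (`Uw n (V.map φ) = (Uw n V).map φ`).
(helper66 proves this row.) -/
def TsnStmt : Prop := ∀ (ℓ : ℕ) [Fact ℓ.Prime] (M : Ideal (integralClosure ℤ ℂ)) [M.IsMaximal],
  (ℓ : integralClosure ℤ ℂ) ∈ M → ∀ (G : Type) [Group G] [Finite G] (e : G → FF M)
  (V : Subgroup G) (γ : G → FF M), Ld ℓ e V γ → ∀ (n : ℕ) (U : Subgroup G), U = Uw n V → U ≠ ⊥ →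
  ∀ f : G → FF M, Fs ℓ e V U γ f → Iu M ℓ n (Nat.card G) V γ →
  YY ℓ ⊤ e = (Nat.card G : ℤ) *
    ((ln e : ℤ) - (ln (fun t : Subgroup.normalizer (U : Set G) => f t) : ℤ))

/-- NLB: the local block of the normaliser block and the normaliser block of the local block.

Proof.  `Uw 1 V = V`, `X = N(V)` (`hU`), `C = C(z)`, `V ≤ X ∩ C`.  `c`, extended by zero to `G`, is a block
of `X ∩ C` over `γ` (`br_V(c) γ = γ`), and so is `f'`, extended by zero (`f'` is a block of the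
normaliser `N_C(V)` of `V.subgroupOf C` in `C`, which is `X ∩ C`; `br f' = br b`, and `br_V(b) γ = γ`).
Two blocks of `X ∩ C ≥ C(V)` with `br_V(·) γ = γ` are equal (see DBL).  `ln` is invariant under the
isomorphisms of `Cu z_X` (in `X`) and `N_C(V)` (in `C`) with `X ∩ C`. -/
def NlbStmt : Prop := ∀ (ℓ : ℕ) [Fact ℓ.Prime] (M : Ideal (integralClosure ℤ ℂ)) [M.IsMaximal],
  (ℓ : integralClosure ℤ ℂ) ∈ M → ∀ (G : Type) [Group G] [Finite G] (e : G → FF M)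
  (V : Subgroup G) (γ : G → FF M), Ld ℓ e V γ → ∀ z ∈ V, ∀ b : G → FF M, Lc e V γ z b →
  ∀ U : Subgroup G, U = V → ∀ f : G → FF M, Fs ℓ e V U γ f →
  ∀ z' : Subgroup.normalizer (U : Set G), (z' : G) = z →
  ∀ c : Subgroup.normalizer (U : Set G) → FF M,
  Lc (fun t : Subgroup.normalizer (U : Set G) => f t)
    (V.subgroupOf (Subgroup.normalizer (U : Set G)))
    (fun t : Subgroup.normalizer (U : Set G) => γ t) z' c →
  ∀ (U' : Subgroup (Cu z)), U' = V.subgroupOf (Cu z) → ∀ f' : Cu z → FF M,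
  Fs ℓ (fun t : Cu z => b t) (V.subgroupOf (Cu z)) U' (fun t : Cu z => γ t) f' →
    ln (fun t : Cu z' => c t) =
      ln (fun t : Subgroup.normalizer (U' : Set (Cu z)) => f' t)

/-! ## 3. The theorem for blocks -/

/-- CLV: closure of the classes under quotients.

Proof.  `π : V → V'`, `t' ∈ T'` induced by `t ∈ T`.  Every commutator `t' v' t'⁻¹ v'⁻¹`, `v' = π v`, is
`π (t v t⁻¹ v⁻¹)`, so `Vc V' γ' ≤ π (Vc V γ)` (`Vc V γ ≤ V` as `T ≤ N(V)`): a subgroup of a quotient of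
`Vc V γ`; `RK2.rk2_sub`, and quotients of `Rk2` are `Rk2` (`Helper66_X4/Rks.lean`: `X4.rk2_surj`).
`Fc`: let `t' ∈ T'` commute with `v' ∈ Vc V' γ'`, `v' ≠ 1`, `v' = π v`, `v ∈ Vc V γ`, `t ∈ T` inducing `t'`,
`m = ix V γ` (prime to `ℓ`), `t ^ m ∈ C(V)`.  `v₁ = ∏_{i < m} t ^ i v t ^ (-i) ∈ Vc V γ` commutes with `t`
and `π v₁ = v' ^ m ≠ 1`, so `v₁ ≠ 1`, `t ∈ C(V)`, so `t'` centralises `V' = π V`.  `ix`: part (2) of the
proof of `T8.Tc8Stmt` (`Helper25_AT8/TC8.lean`). -/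
def ClvStmt : Prop := ∀ (ℓ : ℕ) [Fact ℓ.Prime] (F : Type) [Field F], GoodF ℓ F → ∀ (G A : Type)
  [Group G] [Finite G] [Group A] [Finite A] (e : G → F) (V : Subgroup G) (γ : G → F)
  (f : A → F) (V' : Subgroup A) (γ' : A → F), Ld ℓ e V γ → Ld ℓ f V' γ' → ¬ ℓ ∣ ix V γ →
  Fq V γ V' γ' → (RK2.Rk2 (Vc V γ) → RK2.Rk2 (Vc V' γ')) ∧ (Fc V γ → Fc V' γ') ∧
    ix V' γ' ≤ ix V γ

/-- RB2: the theorem for abelian defect groups with two generators (from `TW.rk2_blk`). -/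
def Rb2Stmt : Prop := ∀ (ℓ : ℕ) [Fact ℓ.Prime] (M : Ideal (integralClosure ℤ ℂ)) [M.IsMaximal],
  (ℓ : integralClosure ℤ ℂ) ∈ M → ∀ (G : Type) [Group G] [Finite G] (e : G → FF M)
  (V : Subgroup G) (γ : G → FF M), Ld ℓ e V γ → V ≠ ⊥ → RK2.Rk2 V → YY ℓ ⊤ e = 0

/-- ABR: the theorem for blocks.

Proof.  Induction on `|G|`.  If `opCore ℓ G ≠ ⊥`: `H96.yzr`.  Let `opCore ℓ G = ⊥`.  `K9.InxStmt`: `ix V γ`
is prime to `ℓ`.  Case `Zf V γ = ⊥`: `Vc V γ = V` by CPV.  If `Rk2 (Vc V γ)`: RB2.  If `Fc V γ` and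
`ix V γ ≤ ℓ`: `Fr V γ`.  `ix V γ ≠ 1` (otherwise `T = C(V)` and `Zf V γ = V ≠ ⊥`), so `ℓ ≠ 2`; let `ℓ ^ a` be
the exponent of `V`, `a > 0`; `T8.T8aStmt` with `Ty8`, third type (`ix V γ ≤ ℓ ≤ ℓ ^ a`).
Case `Zf V γ ≠ ⊥`: `z ∈ Zf V γ`, `z ≠ 1`; `C(z) ≠ G` (otherwise `⟨z⟩` is a normal `ℓ`-subgroup).  `U = V`
(`Uw 1 V = V`), `f` from `T2.FstStmt` (`n = 1`).  `Iu M ℓ 1 |G| V γ` by induction and CLV (`Uw 1 V' = V'`).
TSN: `YY ℓ ⊤ e = |G| (ln e - ln f_X)`, `X = N(V)`.  WAT: `ln e = ln b`, `b` the local block at `z`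
(`T3.LocStmt`), and `ln f_X = ln c`, `c` the local block of `f_X` at `z` (`Fs.ld`; `z` is in `Zf` for `X`,
because the inertial group of `V_X`, `γ_X` consists of elements of `T`).  In the group `C(z)`, with the
block `b` (`T3.LsbStmt`): `YY ℓ ⊤ b = 0` (`z` is central, `opCore ≠ ⊥`, `H96.yzr`), `f'` from
`T2.FstStmt`, and `Iu` for `C(z)` (`|C(z)| < |G|`, `Fq` is transitive or CLV twice: the inertial group of
`V` in `C(z)` consists of elements of `T`, `Vc` becomes smaller or equal, `Rk2` for subgroups by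
`RK2.rk2_sub`, `Fc` restricts, the index divides): by induction all the blocks in question vanish;
TSN: `0 = |C(z)| (ln b - ln f')`.  NLB: `ln c = ln f'`.  So `ln e = ln f_X`. -/
def AbrStmt : Prop := ∀ (ℓ : ℕ) [Fact ℓ.Prime] (M : Ideal (integralClosure ℤ ℂ)) [M.IsMaximal],
  (ℓ : integralClosure ℤ ℂ) ∈ M → ∀ (G : Type) [Group G] [Finite G] (e : G → FF M)
  (V : Subgroup G) (γ : G → FF M), Ld ℓ e V γ → V ≠ ⊥ →
  (RK2.Rk2 (Vc V γ) ∨ (Fc V γ ∧ ix V γ ≤ ℓ)) → YY ℓ ⊤ e = 0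

end Pool.Agent.PP.TV
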