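import Pool.Agent.ATW.Stmts
import Pool.Agent.Helper66_RK2.Grp

/-!
# Squad WAT: the theorem of Watanabe for abelian defect groups: definitions

THEOREM.  `e` a block of `G` with an abelian defect group `V`, `γ` a block of `C(V)` under `e`, `T` the
inertial group.  For `z ∈ V` centralised by `T` let `b` be the local block of `C(z)`.  Then
`l(e) = l(b)`.

COROLLARY.  If `[T, V]` is generated by two elements, or `T / C(V)` acts freely on `[T, V]` and has
order at most `ℓ`, then the alternating sum of `e` is zero (`V` has arbitrary rank).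

Everything on top of the squads ATZ (`TB`), AT10 (`T10`), ATW (`TW`), AT12, AT8, AT5, AT3, AT2.
-/

open scoped BigOperators

noncomputable section

namespace Pool.Agent.PP.TV

open Pool.Agent.Helper51_AWC Pool.Agent.Helper79_WRA Pool.Agent.PP Pool.Agent.PP.KF
open Pool.Agent.PP.K9 Pool.Agent.PP.K9.H97 Pool.Agent.PP.H75 Pool.Agent.PP.T3 Pool.Agent.PP.T2
open Pool.Agent.PP.T5 Pool.Agent.PP.TB
open Pool.Agent.PP.T8 (Rv Fq Fr)

attribute [local instance] Ideal.Quotient.field

section defs

variable {G : Type} [Group G]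

/-- the elements of `V` which commute with the inertial group -/
def Zf {F : Type} (V : Subgroup G) (γ : G → F) : Subgroup G :=
  V ⊓ Subgroup.centralizer (Tg V γ : Set G)

/-- the commutator group `[T, V]` -/
def Vc {F : Type} (V : Subgroup G) (γ : G → F) : Subgroup G := ⁅Tg V γ, V⁆

/-- The inertial quotient acts freely on `[T, V]`. -/
def Fc {F : Type} (V : Subgroup G) (γ : G → F) : Prop :=
  ∀ t ∈ Tg V γ, ∀ v ∈ Vc V γ, v ≠ 1 → t * v = v * t → t ∈ Subgroup.centralizer (V : Set G)

/-- a homomorphism from `V` to the complex numbers which is invariant under the inertial group -/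
def Li {F : Type} (V : Subgroup G) (γ : G → F) (lam : V →* ℂ) : Prop :=
  ∀ t ∈ Tg V γ, ∀ v w : V, (w : G) = t * v * t⁻¹ → lam w = lam v

variable (M : Ideal (integralClosure ℤ ℂ)) [M.IsMaximal]

/-- The alternating sum is zero for all the blocks of groups of order less than `N` whose defect
group `V'` is a quotient of `V` in the sense of `Fq` and satisfies `V' ^ n ≠ 1`. -/
def Iu (ℓ n N : ℕ) (V : Subgroup G) (γ : G → FF M) : Prop :=
  ∀ (A : Type) [Group A] [Finite A], Nat.card A < N → ∀ (f : A → FF M) (V' : Subgroup A)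
    (γ' : A → FF M), Ld ℓ f V' γ' → Uw n V' ≠ ⊥ → Fq V γ V' γ' → YY ℓ ⊤ f = 0

end defs

end Pool.Agent.PP.TV
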