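import Pool.Agent.WAT.Stmts
import Pool.Agent.AT12.Stmts3

/-!
# Squad WAT: the final theorem for characters
-/

open scoped BigOperators

noncomputable section

namespace Pool.Agent.PP.TV

open Pool.Agent.Helper51_AWC Pool.Agent.Helper79_WRA Pool.Agent.PP Pool.Agent.PP.KF
open Pool.Agent.PP.K9 Pool.Agent.PP.K9.H97 Pool.Agent.PP.H75 Pool.Agent.PP.T3 Pool.Agent.PP.T2
open Pool.Agent.PP.T8 (Fd In)

attribute [local instance] Ideal.Quotient.field

/-- the subgroup generated by the commutators of the elements of the inertial group with the elements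
of `D` -/
def Dc (M : Ideal (integralClosure ℤ ℂ)) {G : Type} [Group G] (D : Subgroup G)
    (th : Subgroup.centralizer (D : Set G) → ℂ) : Subgroup G :=
  Subgroup.closure {x | ∃ t ∈ Iner M D th, ∃ d ∈ D, x = t * d * t⁻¹ * d⁻¹}

/-- FNW: the final theorem.  `D` is an abelian defect group of the block of `χ`, larger than `O_ℓ(G)`,
`th` belongs to a block of `C(D)` under the block of `χ`, `Iner M D th` is its inertial group. -/
def FnwStmt : Prop := ∀ (ℓ : ℕ) [Fact ℓ.Prime] (M : Ideal (integralClosure ℤ ℂ)) [M.IsMaximal],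
  (ℓ : integralClosure ℤ ℂ) ∈ M → ∀ (G : Type) [Group G] [Finite G],
  opCore ℓ G ≤ Subgroup.center G → ∀ χ ∈ Irr G, ∀ D : Subgroup G, ML.IsDef ℓ M χ D →
  D ≠ opCore ℓ G → (∀ x ∈ D, ∀ y ∈ D, x * y = y * x) →
  ∀ th ∈ IrrBlock M (Subgroup.centralizer (D : Set G)).subtype χ,
  ((∃ a ∈ D, ∃ b ∈ D, Dc M D th ≤ Subgroup.closure {a, b}) ∨
    (In M D th (ℓ + 1) ∧ ∀ t ∈ Iner M D th, ∀ v ∈ Dc M D th, v ≠ 1 → t * v = v * t →
      t ∈ Subgroup.centralizer (D : Set G)) ∨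
    3 * (Iner M D th).ncard ≤ ℓ * Nat.card (Subgroup.centralizer (D : Set G)) ∨
    (ℓ ≠ 2 ∧ ∃ (A : Type) (_ : Group A) (_ : Finite A) (p : G →* A) (a : ℕ),
      Function.Surjective p ∧ p.ker = opCore ℓ G ∧ Monoid.exponent (D.map p) = ℓ ^ a ∧
      ((∃ k : ℕ, 0 < k ∧ k ≤ a ∧
          (Nat.card (D.map p) ≤ ℓ ^ (2 * k) * Nat.card (Uw ℓ (D.map p)) ∨ In M D th ℓ ∨
            (In M D th (ℓ ^ (2 * k)) ∧ Fd ℓ M D th)) ∧
          Nat.card (D.map p) ≤ ℓ ^ (a + k - 1) * Nat.card (Uw (ℓ ^ k) (D.map p)) ∧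
          ((∀ s ∈ Iner M D th, ∀ t ∈ Iner M D th,
            s * t * s⁻¹ * t⁻¹ ∈ Subgroup.centralizer (D : Set G)) ∨ In M D th ℓ ∨
              Fd ℓ M D th)) ∨
        (0 < a ∧ Fd ℓ M D th ∧ In M D th (ℓ ^ a + 1))))) → altSum ℓ M χ = 0

end Pool.Agent.PP.TV
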